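import Mathlib

/-!
# Extremal polynomial-solution points in the Josephson model are never collinear
-/

set_option autoImplicit false

open Polynomial Set

namespace Pool.Agent.Results.MP_e0279d_an.NeverCollinear

/-- The polynomial `E` solves the double confluent Heun equation
`z² E'' + ((1-l) z + μ (1-z²)) E' + (λ + μ (l-1) z) E = 0`. -/
def SolvesHeun (l : ℕ) (mu lam : ℂ) (E : ℂ[X]) : Prop :=
  X ^ 2 * derivative (derivative E) +
    ((1 - (l : ℂ[X])) * X + C mu * (1 - X ^ 2)) * derivative E +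
    (C lam + C mu * ((l : ℂ[X]) - 1) * X) * E = 0

/-- The set of all `A` such that for `B = l ω`, `μ = A / (2 ω)`, `λ = 1 / (4 ω²) - μ²` the equation
has a nonzero polynomial solution. -/
def polySet (ω : ℝ) (l : ℕ) : Set ℝ :=
  {A : ℝ | ∃ E : ℂ[X], E ≠ 0 ∧
    SolvesHeun l ((A / (2 * ω) : ℝ) : ℂ) ((1 / (4 * ω ^ 2) - (A / (2 * ω)) ^ 2 : ℝ) : ℂ) E}

/-- `P` is the point `𝒫_l`: it lies on the line `{B = l ω}` and its `A`-coordinate is the largest
one among the points of this line for which there is a nonzero polynomial solution. -/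
def IsExtremalPoint (ω : ℝ) (l : ℕ) (P : ℝ × ℝ) : Prop :=
  P.1 = l * ω ∧ IsGreatest (polySet ω l) P.2

/-- The equation in expanded form. -/
lemma expand {l : ℕ} {mu lam : ℂ} {E : ℂ[X]} : SolvesHeun l mu lam E ↔
    X ^ 2 * derivative (derivative E) + C (1 - (l : ℂ)) * (X * derivative E) +
      C mu * derivative E - C mu * (X ^ 2 * derivative E) + C lam * E +
      C (mu * ((l : ℂ) - 1)) * (X * E) = 0 := by
  unfold SolvesHeun
  have : (l : ℂ[X]) = C (l : ℂ) := by simp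
  rw [this]
  simp only [C_sub, C_mul, map_one]
  constructor <;> intro h <;> linear_combination h

/-- The coefficient recursion, index `0`. -/
lemma coeff_zero_eq {l : ℕ} {mu lam : ℂ} {E : ℂ[X]} (h : SolvesHeun l mu lam E) :
    lam * E.coeff 0 + mu * E.coeff 1 = 0 := by
  have := congrArg (fun p => p.coeff 0) (expand.mp h)
  simp [coeff_derivative] at this
  linear_combination this

/-- The coefficient recursion, index `1`. -/
lemma coeff_one_eq {l : ℕ} {mu lam : ℂ} {E : ℂ[X]} (h : SolvesHeun l mu lam E) :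
    (1 - (l : ℂ) + lam) * E.coeff 1 + 2 * mu * E.coeff 2 + mu * ((l : ℂ) - 1) * E.coeff 0 = 0 := by
  have := congrArg (fun p => p.coeff 1) (expand.mp h)
  simp only [coeff_add, coeff_sub, coeff_C_mul, coeff_X_mul, coeff_X_pow_mul', coeff_derivative,
    coeff_zero] at this
  norm_num at this
  linear_combination this

/-- The coefficient recursion, index `m + 2`. -/
lemma coeff_succ_eq {l : ℕ} {mu lam : ℂ} {E : ℂ[X]} (h : SolvesHeun l mu lam E) (m : ℕ) :
    (((m : ℂ) + 2) * ((m : ℂ) + 2 - l) + lam) * E.coeff (m + 2) +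
      mu * (m + 3) * E.coeff (m + 3) + mu * ((l : ℂ) - (m + 2)) * E.coeff (m + 1) = 0 := by
  have := congrArg (fun p => p.coeff (m + 2)) (expand.mp h)
  simp only [coeff_add, coeff_sub, coeff_C_mul, coeff_X_mul, coeff_X_pow_mul, coeff_derivative,
    coeff_zero] at this
  push_cast at this
  linear_combination this

/-- The degree of a polynomial solution. -/
lemma natDegree_eq {l : ℕ} {mu lam : ℂ} {E : ℂ[X]} (h : SolvesHeun l mu lam E) (hE : E ≠ 0)
    (hmu : mu ≠ 0) : E.natDegree + 1 = l := by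
  set N := E.natDegree with hN
  have hl : E.coeff N ≠ 0 := by
    rw [hN, coeff_natDegree]
    exact leadingCoeff_ne_zero.mpr hE
  have hz : ∀ k, N < k → E.coeff k = 0 := fun k hk => coeff_eq_zero_of_natDegree_lt hk
  have key : ((l : ℂ) - (N + 1)) = 0 := by
    rcases Nat.eq_zero_or_pos N with h0 | h0
    · have h1 := coeff_one_eq h
      rw [hz 1 (by omega), hz 2 (by omega)] at h1
      rw [h0] at hl ⊢
      have h2 : mu * ((l : ℂ) - 1) * E.coeff 0 = 0 := by linear_combination h1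
      rcases mul_eq_zero.mp h2 with h3 | h3
      · rcases mul_eq_zero.mp h3 with h4 | h4
        · exact absurd h4 hmu
        · push_cast
          linear_combination h4
      · exact absurd h3 hl
    · obtain ⟨m, hm⟩ : ∃ m, N = m + 1 := ⟨N - 1, by omega⟩
      have h1 := coeff_succ_eq h m
      rw [hz (m + 2) (by omega), hz (m + 3) (by omega)] at h1
      rw [hm] at hl ⊢
      have h2 : mu * ((l : ℂ) - (m + 2)) * E.coeff (m + 1) = 0 := by linear_combination h1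
      rcases mul_eq_zero.mp h2 with h3 | h3
      · rcases mul_eq_zero.mp h3 with h4 | h4
        · exact absurd h4 hmu
        · push_cast
          linear_combination h4
      · exact absurd h3 hl
  have : (l : ℂ) = ((N + 1 : ℕ) : ℂ) := by
    push_cast
    linear_combination key
  exact_mod_cast this.symm

lemma cond_one {m L : ℝ} (hm : m ≠ 0) {E : ℂ[X]} (hE : E ≠ 0)
    (h : SolvesHeun 1 (m : ℂ) (L : ℂ) E) : L = 0 := by
  have hmu : (m : ℂ) ≠ 0 := by exact_mod_cast hm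
  have hN := natDegree_eq h hE hmu
  have h0 : E.natDegree = 0 := by omega
  have hl : E.coeff 0 ≠ 0 := by
    rw [← h0, coeff_natDegree]
    exact leadingCoeff_ne_zero.mpr hE
  have h1 := coeff_zero_eq h
  rw [coeff_eq_zero_of_natDegree_lt (by omega : E.natDegree < 1), mul_zero, add_zero] at h1
  rcases mul_eq_zero.mp h1 with h2 | h2
  · exact_mod_cast h2
  · exact absurd h2 hl

lemma cond_two {m L : ℝ} (hm : m ≠ 0) {E : ℂ[X]} (hE : E ≠ 0)
    (h : SolvesHeun 2 (m : ℂ) (L : ℂ) E) : L * (L - 1) = m ^ 2 := by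
  have hmu : (m : ℂ) ≠ 0 := by exact_mod_cast hm
  have hN := natDegree_eq h hE hmu
  have h0 : E.natDegree = 1 := by omega
  have hl : E.coeff 1 ≠ 0 := by
    rw [← h0, coeff_natDegree]
    exact leadingCoeff_ne_zero.mpr hE
  have e0 := coeff_zero_eq h
  have e1 := coeff_one_eq h
  rw [coeff_eq_zero_of_natDegree_lt (by omega : E.natDegree < 2)] at e1
  push_cast at e1
  have h2 : ((L : ℂ) * (L - 1) - m ^ 2) * E.coeff 1 = 0 := by
    linear_combination (L : ℂ) * e1 - (m : ℂ) * e0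
  rcases mul_eq_zero.mp h2 with h3 | h3
  · have h4 : ((L * (L - 1) - m ^ 2 : ℝ) : ℂ) = 0 := by push_cast; exact h3
    have h5 : L * (L - 1) - m ^ 2 = 0 := by exact_mod_cast h4
    linarith
  · exact absurd h3 hl

lemma cond_three {m L : ℝ} (hm : m ≠ 0) {E : ℂ[X]} (hE : E ≠ 0)
    (h : SolvesHeun 3 (m : ℂ) (L : ℂ) E) :
    L * (L - 2) ^ 2 - 4 * m ^ 2 * L + 4 * m ^ 2 = 0 := by
  have hmu : (m : ℂ) ≠ 0 := by exact_mod_cast hm
  have hN := natDegree_eq h hE hmu
  have h0 : E.natDegree = 2 := by omega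
  have hl : E.coeff 2 ≠ 0 := by
    rw [← h0, coeff_natDegree]
    exact leadingCoeff_ne_zero.mpr hE
  have e0 := coeff_zero_eq h
  have e1 := coeff_one_eq h
  have e2 := coeff_succ_eq h 0
  rw [coeff_eq_zero_of_natDegree_lt (by omega : E.natDegree < 0 + 3)] at e2
  push_cast at e1 e2
  norm_num at e2
  -- eliminate
  have h2 : ((L : ℂ) * (L - 2) ^ 2 - 4 * m ^ 2 * L + 4 * m ^ 2) * E.coeff 2 = 0 := by
    have h3 : (m : ℂ) * (((L : ℂ) * (L - 2) ^ 2 - 4 * m ^ 2 * L + 4 * m ^ 2) * E.coeff 2) = 0 := by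
      linear_combination ((L : ℂ) * (L - 2) - 2 * m ^ 2) * m * e2 -
        (L : ℂ) * m ^ 2 * e1 + 2 * (m : ℂ) ^ 3 * e0
    exact (mul_eq_zero.mp h3).resolve_left hmu
  rcases mul_eq_zero.mp h2 with h3 | h3
  · exact_mod_cast h3
  · exact absurd h3 hl

lemma ex_one {m : ℝ} : SolvesHeun 1 (m : ℂ) ((0 : ℝ) : ℂ) (1 : ℂ[X]) := by
  unfold SolvesHeun
  simp

lemma ex_two {m L : ℝ} (h : L * (L - 1) = m ^ 2) :
    SolvesHeun 2 (m : ℂ) (L : ℂ) (C (m : ℂ) - C (L : ℂ) * X) := by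
  have h' : (C (L : ℂ) * (C (L : ℂ) - 1) : ℂ[X]) = C (m : ℂ) ^ 2 := by
    have : ((L : ℂ) * (L - 1)) = (m : ℂ) ^ 2 := by exact_mod_cast h
    rw [← map_pow, ← this]
    simp
  unfold SolvesHeun
  simp only [map_sub, derivative_C, derivative_mul, derivative_X, zero_mul, mul_one, zero_add,
    zero_sub, derivative_neg]
  push_cast
  linear_combination (-X) * h'

lemma ex_three {m L : ℝ} (h : L * (L - 2) ^ 2 - 4 * m ^ 2 * L + 4 * m ^ 2 = 0) :
    SolvesHeun 3 (m : ℂ) (L : ℂ) (C (m : ℂ) * (C (L : ℂ) - 2) -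
      C (L : ℂ) * (C (L : ℂ) - 2) * X + C (m : ℂ) * C (L : ℂ) * X ^ 2) := by
  have h' : (C (L : ℂ) * (C (L : ℂ) - 2) ^ 2 - 4 * C (m : ℂ) ^ 2 * C (L : ℂ) +
      4 * C (m : ℂ) ^ 2 : ℂ[X]) = 0 := by
    have h1 : ((L : ℂ) * (L - 2) ^ 2 - 4 * (m : ℂ) ^ 2 * L + 4 * (m : ℂ) ^ 2) = 0 := by
      exact_mod_cast h
    have h2 := congrArg (C : ℂ → ℂ[X]) h1
    have c2 : (C (2 : ℂ) : ℂ[X]) = 2 := map_ofNat C 2
    have c4 : (C (4 : ℂ) : ℂ[X]) = 4 := map_ofNat C 4
    simp only [map_add, map_sub, map_mul, map_pow, map_zero, c2, c4] at h2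
    exact h2
  unfold SolvesHeun
  simp only [map_sub, map_add, derivative_C, derivative_mul, derivative_X, derivative_X_pow,
    derivative_ofNat, zero_mul, mul_one, zero_add, mul_zero, add_zero, sub_zero, zero_sub,
    derivative_neg]
  push_cast
  simp only [map_ofNat, map_one]
  linear_combination (-X) * h'

/-- Comparison of the roots. -/
lemma root_le {κ ν x : ℝ} (hκ : 0 < κ) (hν : 0 < ν) (h1 : ν ^ 3 = 4 * κ * (ν + 1))
    (h2 : x ^ 3 = 4 * κ * (x + 1)) : x ≤ ν := by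
  by_contra hx
  push Not at hx
  have h3 : x ^ 3 * (ν + 1) = ν ^ 3 * (x + 1) := by rw [h1, h2]; ring
  have hx0 : 0 < x := hν.trans hx
  have h4 : ν ^ 2 < x ^ 2 := by nlinarith
  have h5 : ν ^ 3 < x ^ 3 := by nlinarith [mul_pos hν hx0]
  nlinarith [mul_pos (mul_pos hν hx0) (sub_pos.mpr h4)]

lemma exists_nu {ω : ℝ} (hω : 0 < ω) : ∃ ν : ℝ, 0 < ν ∧ ω ^ 2 * ν ^ 3 = ν + 1 := by
  have hc : ContinuousOn (fun ν : ℝ => ω ^ 2 * ν ^ 3 - ν - 1) (Icc 0 (1 + 2 / ω ^ 2 + 2 / ω)) := by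
    fun_prop
  set M : ℝ := 1 + 2 / ω ^ 2 + 2 / ω with hM
  have hM1 : 1 ≤ M := by
    rw [hM]
    have : 0 < 2 / ω ^ 2 := by positivity
    have : 0 < 2 / ω := by positivity
    linarith
  have h0 : (0 : ℝ) ∈ Icc ((fun ν : ℝ => ω ^ 2 * ν ^ 3 - ν - 1) 0)
      ((fun ν : ℝ => ω ^ 2 * ν ^ 3 - ν - 1) M) := by
    constructor
    · norm_num
    · simp only
      have h1 : 2 ≤ ω ^ 2 * M := by
        have : ω ^ 2 * M = ω ^ 2 + 2 + 2 * ω := by
          rw [hM]
          field_simp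
        rw [this]
        nlinarith [sq_nonneg ω]
      have h2 : ω ^ 2 * M ^ 3 = (ω ^ 2 * M) * M ^ 2 := by ring
      nlinarith [mul_le_mul_of_nonneg_right h1 (sq_nonneg M)]
  obtain ⟨ν, hν, hν0⟩ := intermediate_value_Icc (by linarith) hc h0
  simp only at hν0
  refine ⟨ν, ?_, by linarith⟩
  rcases hν.1.eq_or_lt with h | h
  · exfalso
    rw [← h] at hν0
    norm_num at hν0
  · exact h

/-- The point `𝒫₁`. -/
lemma extremal_one {ω : ℝ} (hω : 0 < ω) : IsExtremalPoint ω 1 (ω, 1) := by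
  refine ⟨by simp, ⟨1, one_ne_zero, ?_⟩, ?_⟩
  · have : (1 / (4 * ω ^ 2) - (1 / (2 * ω)) ^ 2 : ℝ) = 0 := by
      field_simp
      norm_num
    rw [this]
    exact ex_one
  · rintro A ⟨E, hE, h⟩
    by_contra hA
    push Not at hA
    have hm : A / (2 * ω) ≠ 0 := by positivity
    have := cond_one hm hE h
    have h2 : A ^ 2 = 1 := by
      field_simp at this
      nlinarith
    nlinarith

/-- The point `𝒫₂`. -/
lemma extremal_two {ω : ℝ} (hω : 0 < ω) : IsExtremalPoint ω 2 (2 * ω, Real.sqrt (1 + 2 * ω)) := by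
  have hs : Real.sqrt (1 + 2 * ω) ^ 2 = 1 + 2 * ω := Real.sq_sqrt (by positivity)
  have hs0 : 0 < Real.sqrt (1 + 2 * ω) := Real.sqrt_pos.mpr (by positivity)
  set a := Real.sqrt (1 + 2 * ω) with ha
  refine ⟨by simp, ⟨_, ?_, ex_two (m := a / (2 * ω)) (L := 1 / (4 * ω ^ 2) - (a / (2 * ω)) ^ 2) ?_⟩,
    ?_⟩
  · intro h
    have h1 := congrArg (fun p => p.coeff 0) h
    simp only [coeff_sub, coeff_C_zero, mul_coeff_zero, coeff_X_zero, mul_zero, sub_zero,
      coeff_zero] at h1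
    have : a / (2 * ω) = 0 := by exact_mod_cast h1
    have : 0 < a / (2 * ω) := by positivity
    linarith
  · rw [div_pow, hs]
    field_simp
    ring
  · rintro A ⟨E, hE, h⟩
    by_contra hA
    push Not at hA
    have hA0 : 0 < A := hs0.trans hA
    have hm : A / (2 * ω) ≠ 0 := by positivity
    have h1 := cond_two hm hE h
    have hAsq : 1 + 2 * ω < A ^ 2 := by nlinarith
    have h2 : (1 - A ^ 2) * (1 - A ^ 2 - 4 * ω ^ 2) = A ^ 2 * (4 * ω ^ 2) := by
      field_simp at h1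
      linear_combination (1 / 16) * h1
    have h3 : (A ^ 2 - 1) ^ 2 = 4 * ω ^ 2 := by linear_combination h2
    nlinarith

/-- The point `𝒫₃`. -/
lemma extremal_three {ω ν : ℝ} (hω : 0 < ω) (hν : 0 < ν) (h : ω ^ 2 * ν ^ 3 = ν + 1) :
    IsExtremalPoint ω 3 (3 * ω, Real.sqrt (1 + 4 * ω ^ 2 * ν)) := by
  have hs : Real.sqrt (1 + 4 * ω ^ 2 * ν) ^ 2 = 1 + 4 * ω ^ 2 * ν := Real.sq_sqrt (by positivity)
  have hs0 : 0 < Real.sqrt (1 + 4 * ω ^ 2 * ν) := Real.sqrt_pos.mpr (by positivity)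
  set a := Real.sqrt (1 + 4 * ω ^ 2 * ν) with ha
  set κ : ℝ := 1 / (4 * ω ^ 2) with hκ
  have hκ0 : 0 < κ := by positivity
  have hκω : κ * (4 * ω ^ 2) = 1 := by
    rw [hκ]
    field_simp
  have hνκ : ν ^ 3 = 4 * κ * (ν + 1) := by
    rw [← h]
    linear_combination (-ν ^ 3) * hκω
  have hL : κ - (a / (2 * ω)) ^ 2 = -ν := by
    rw [div_pow, hs, hκ]
    field_simp
    ring
  have hm : (a / (2 * ω)) ^ 2 = κ + ν := by linarith
  refine ⟨by simp, ⟨_, ?_, ex_three (m := a / (2 * ω)) (L := κ - (a / (2 * ω)) ^ 2) ?_⟩, ?_⟩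
  · intro h
    have h1 := congrArg (fun p => p.coeff 0) h
    rw [hL] at h1
    have c2 : (C (2 : ℂ) : ℂ[X]) = 2 := map_ofNat C 2
    simp only [← c2, ← map_sub, ← map_mul, coeff_sub, coeff_add, coeff_C_zero, mul_coeff_zero,
      coeff_X_zero, mul_zero, sub_zero, coeff_zero] at h1
    simp only [coeff_X_pow] at h1
    norm_num at h1
    have h2 : a / (2 * ω) ≠ 0 := by positivity
    rcases h1 with h1 | h1
    · apply h2
      rcases h1 with h1 | h1
      · simp [h1]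
      · simp [h1]
    · have : (-ν - 2 : ℝ) = 0 := by exact_mod_cast h1
      linarith
  · rw [hL, hm]
    linear_combination (-1) * hνκ
  · rintro A ⟨E, hE, h⟩
    by_contra hA
    push Not at hA
    have hA0 : 0 < A := hs0.trans hA
    have hmA : A / (2 * ω) ≠ 0 := by positivity
    have h1 := cond_three hmA hE h
    rw [← hκ] at h1
    set m2 := (A / (2 * ω)) ^ 2 with hm2
    have hA2 : κ + ν < m2 := by
      rw [← hm, hm2]
      exact pow_lt_pow_left₀ (div_lt_div_of_pos_right hA (by positivity)) (by positivity) two_ne_zero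
    have h2 : (m2 - κ) ^ 3 = 4 * κ * ((m2 - κ) + 1) := by linear_combination (-1) * h1
    have := root_le hκ0 hν hνκ h2
    linarith

/-- For every `ω > 0` the points `𝒫₁`, `𝒫₂`, `𝒫₃` exist and do not lie on a line. -/
theorem result : ∀ ω : ℝ, 0 < ω → ∃ P₁ P₂ P₃ : ℝ × ℝ, IsExtremalPoint ω 1 P₁ ∧
    IsExtremalPoint ω 2 P₂ ∧ IsExtremalPoint ω 3 P₃ ∧ ¬ Collinear ℝ {P₁, P₂, P₃} := by
  intro ω hω
  obtain ⟨ν, hν, hν3⟩ := exists_nu hω
  refine ⟨_, _, _, extremal_one hω, extremal_two hω, extremal_three hω hν hν3, ?_⟩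
  intro hcol
  have hs : Real.sqrt (1 + 4 * ω ^ 2 * ν) ^ 2 = 1 + 4 * ω ^ 2 * ν := Real.sq_sqrt (by positivity)
  have ha2 : Real.sqrt (1 + 2 * ω) ^ 2 = 1 + 2 * ω := Real.sq_sqrt (by positivity)
  have ha1 : 1 < Real.sqrt (1 + 2 * ω) := by
    rw [Real.lt_sqrt (by norm_num)]
    linarith
  set a := Real.sqrt (1 + 2 * ω) with ha
  set c := Real.sqrt (1 + 4 * ω ^ 2 * ν) with hc
  have hmid : 1 + c = 2 * a := by
    obtain ⟨p₀, v, hv⟩ := (collinear_iff_exists_forall_eq_smul_vadd (k := ℝ) _).mp hcol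
    obtain ⟨r₁, h₁⟩ := hv _ (by simp : ((ω, 1) : ℝ × ℝ) ∈ _)
    obtain ⟨r₂, h₂⟩ := hv _ (by simp : ((2 * ω, a) : ℝ × ℝ) ∈ _)
    obtain ⟨r₃, h₃⟩ := hv _ (by simp : ((3 * ω, c) : ℝ × ℝ) ∈ _)
    simp only [Prod.ext_iff, vadd_eq_add, Prod.fst_add, Prod.snd_add, Prod.smul_fst,
      Prod.smul_snd, smul_eq_mul] at h₁ h₂ h₃
    have h4 : (r₂ - r₁) * v.1 = ω := by linarith [h₁.1, h₂.1]
    have h5 : (r₃ - r₂) * v.1 = ω := by linarith [h₃.1, h₂.1]
    have hv1 : v.1 ≠ 0 := by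
      intro h0
      rw [h0, mul_zero] at h4
      exact hω.ne h4
    have h6 : r₂ - r₁ = r₃ - r₂ := by
      have : (r₂ - r₁ - (r₃ - r₂)) * v.1 = 0 := by linarith
      rcases mul_eq_zero.mp this with h | h
      · linarith
      · exact absurd h hv1
    have h7 : (r₂ - r₁) * v.2 = a - 1 := by linarith [h₁.2, h₂.2]
    have h8 : (r₃ - r₂) * v.2 = c - a := by linarith [h₃.2, h₂.2]
    rw [h6] at h7
    linarith
  have hc2 : (2 * a - 1) ^ 2 = 1 + 4 * ω ^ 2 * ν := by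
    rw [← hs]
    have : c = 2 * a - 1 := by linarith
    rw [this]
  have hω2 : 2 * ω = a ^ 2 - 1 := by linarith
  have h1 : ω ^ 2 * ν = a ^ 2 - a := by nlinarith
  -- `(a² - 1)² ν = 4 a (a - 1)`
  have h2 : (a ^ 2 - 1) ^ 2 * ν = 4 * (a ^ 2 - a) := by
    rw [← h1, ← hω2]
    ring
  have ha0 : 0 < a - 1 := by linarith
  have h3 : (a - 1) * (a + 1) ^ 2 * ν = 4 * a := by
    have h : (a - 1) * ((a - 1) * (a + 1) ^ 2 * ν - 4 * a) = 0 := by linear_combination h2
    rcases mul_eq_zero.mp h with h | h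
    · exact absurd h ha0.ne'
    · linarith
  have h4 : (a ^ 2 - a) * ν ^ 2 = ν + 1 := by
    rw [← h1, ← hν3]
    ring
  -- multiply by `(a - 1) (a + 1)⁴`
  have h5 : 16 * a ^ 3 = (a + 1) ^ 2 * (4 * a + (a - 1) * (a + 1) ^ 2) := by
    have e1 : a * ((a - 1) * (a + 1) ^ 2 * ν) ^ 2 = 16 * a ^ 3 := by rw [h3]; ring
    have e2 : a * ((a - 1) * (a + 1) ^ 2 * ν) ^ 2 =
        (a - 1) * (a + 1) ^ 4 * ((a ^ 2 - a) * ν ^ 2) := by ring
    rw [← e1, e2, h4]
    linear_combination (a + 1) ^ 2 * h3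
  have h6 : (a - 1) ^ 2 * (a ^ 3 + 5 * a ^ 2 - a - 1) = 0 := by linear_combination (-1) * h5
  have h7 : 0 < (a - 1) ^ 2 * (a ^ 3 + 5 * a ^ 2 - a - 1) := by
    have : 0 < a ^ 3 + 5 * a ^ 2 - a - 1 := by nlinarith
    positivity
  linarith

end Pool.Agent.Results.MP_e0279d_an.NeverCollinear
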